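import Pool.Agent.Run7.h286.PL.SurfLaw

/-!
# Orders of zeta functions and ranks of Chow groups for the twists `D(t) y ^ 2 = f(x, t)` of a surface

Let `k` be a finite field of odd characteristic with `q` elements, `g ≥ 1`, and let
`f = x ^ (2 g + 1) + f_{2 g - 1} x ^ (2 g - 1) + ... + f_0` be a polynomial over `k[t]` with
`deg f_j ≤ 2 N (2 g + 1 - j)`, `N ≥ 1`, such that the discriminant of `f` (with respect to `x`) is a squarefree
polynomial in `t` and the polynomial over `k` formed by the coefficients of `t ^ (2 N (2 g + 1 - j))` in the `f_j`
is irreducible. (If the characteristic is larger than `2 g + 1` these `f` are a positive proportion of all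
the `f` with `deg f_j ≤ 2 N (2 g + 1 - j)`, as `N` tends to infinity.) For a squarefree `D` in `k[t]` let `Y_D` be a
smooth projective model over `k` of the surface `D(t) y ^ 2 = f(x, t)`; these are all the quadratic twists of
`Y_1`, their geometric genus tends to infinity with the degree of `D`. Let `J_D` be the Jacobian of the generic
fibre of `Y_D`, a curve of genus `g` over `K = k(t)`, and `Sel(D)` its 2-Selmer group.

Theorem. Let `u` in `k`, `u ≠ 0`, and let `D` run through all squarefree polynomials of degree `m` with leading
coefficient `u` which are prime to the discriminant of `f`, `m → ∞` (the field `k`, `g` and `f` are fixed).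
1. The proportion of the `D` with `dim Sel(D) = d` tends to
   `p_d = ∏_{j ≥ 0} (1 + 2 ^ (-j)) ^ (-1) ∏_{i = 1}^d 2 / (2 ^ i - 1)`, the law of Poonen and Rains.
2. The average of `|Sel(D)| ^ j` tends to `(1 + 2) (1 + 4) ... (1 + 2 ^ j)`; the average of `φ(dim Sel(D))` tends to
   `∑ p_d φ(d)` for every `φ` of at most exponential growth.
3. For every `D`: `J_D(K)` has no element of order two and `|Sel(D)| = [J_D(K) : 2 J_D(K)] |Sha(J_D)[2]|`.
4. For at least `20.97` percent of the `D` the group `J_D(K)` is uniquely divisible by two and the 2-primary part
   of the Tate-Shafarevich group of `J_D` is zero.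

Consequences (not formalised). The Brauer group of `Y_D` is `Sha(J_D)` (Artin, Grothendieck); if its 2-primary
part is finite, then the Brauer group is finite and the order of the pole of the zeta function of `Y_D` at `s = 1` is
the rank of `Pic(Y_D)` (Tate, Milne, Kato and Trihan). As `CH^1(Y_D, 1)` is the finite group `k^*` and
`CH^1(Y_D, i) = 0` for `i > 1`, this is the formula of Q2 for `X = Y_D` and `r = 1` (for `r ≤ 0` it is clear). So by 4
it holds for at least `20.97` percent of these twists `Y_D` in the natural ordering, over a fixed finite field, for
every `g`. The law of 1 and the moments of 2 are those of `2 ^ rank |Br(Y_D)[2]|`, whose mean is exactly `3`.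

`J(L)` is the Picard group of the affine coordinate ring `L[x, y] / (y ^ 2 - F)`, because the only point at
infinity of the curve is rational (`Pool/Agent/Y713/SE/Stm.lean`); the curve `D y ^ 2 = f(x)` has the equation
`y ^ 2 = F(x)` with `F = D ^ (2 g + 1) f(x / D)`. The 2-Selmer group and `Sha[2]` are defined by continuous cocycles
in `Pool/Agent/Run7/h286/PL/SelDef.lean`, the family, the twists and the law in
`Pool/Agent/Run7/h286/PL/SurfLaw.lean`.

The proof is described in `Results/MP_60d5ce_nt/ExactLawOfTwists.lean`: projects PRL (helper286, with helpers 160,
209, 212, 215, 216, 270, 303, 382, 416, 502, 547, 704, 711, 760, 803, 824, 847, 886, 908, 957) and TG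
(helper784, with helpers 68, 81, 286, 382, 646, 688, 711, 760, 779, 781, 811, 886, 908, 973), and the
libraries TS (helper875), PJ and JB (helper352) and PP (helper874).
-/

set_option autoImplicit false
set_option linter.all false

namespace Pool.Agent.Results.MP_666bea_ag.AllTwistsOfSurfaces

open Polynomial
open Run7.h286.SurfLaw (InFamily ExactLaw Values PositiveProportion)

/-- Let `k` be a finite field of odd characteristic, `K = k(t)`, `g ≥ 1`, `f` in the family (monic of
degree `2 g + 1` over `k[t]`, `f_{2 g} = 0`, `deg f_j ≤ 2 N (2 g + 1 - j)`, `N ≥ 1`, squarefree discriminant,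
irreducible reduction at infinity), `u ≠ 0` in `k`, and let `D` run through the squarefree polynomials
of degree `m` with leading coefficient `u`, prime to the discriminant, `m → ∞`. Let `J_D` be the Jacobian of the
generic fibre of the surface `D(t) y ^ 2 = f(x, t)`.
(1) The proportion of the `D` for which the 2-Selmer group of `J_D` has order `2 ^ d` tends to `prob d`. (2) The
average of the `j`-th power of the order tends to `(1 + 2) ... (1 + 2 ^ j)`. (3) The average of `φ(dimension)` tends
to `∑ prob d φ(d)` for all `φ` of at most exponential growth. (4) For every `D` the order is a power of two,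
`J_D(K)` has no 2-torsion, `|Sel| = [J_D(K) : 2 J_D(K)] |Sha[2]|`, and if the Selmer group is trivial, then
`J_D(K)` is uniquely divisible by two and the 2-primary part of the Tate-Shafarevich group is zero; this is so for
at least `20.97` percent of the `D` of every large degree.
(5) Values: the sum of the `prob d` is `1`, `prob 0 > 0.2097`, `prob 0 + prob 1 > 0.629`; the mean is
`∑ 1 / (2 ^ j + 1) < 1.2646`; the even dimensions have probability one half.
(6) If the characteristic is larger than `2 g + 1`, a positive proportion of all `f` with
`deg f_j ≤ 2 N (2 g + 1 - j)` belongs to the family. -/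
theorem result (g : ℕ) (hg : 1 ≤ g) (k : Type) [Field k] [Finite k] (h2 : (2 : k) ≠ 0) (K : Type)
    [Field K] [Algebra k[X] K] [IsFractionRing k[X] K] :
    (∀ (N : ℕ) (f : k[X][X]) (u : k), 1 ≤ N → InFamily g N f → u ≠ 0 → ExactLaw K g f u) ∧
    Values ∧ (((2 * g + 1).factorial : k) ≠ 0 → PositiveProportion g k) :=
  Run7.h286.SurfLaw.main g hg k h2 K

end Pool.Agent.Results.MP_666bea_ag.AllTwistsOfSurfaces
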